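import Pool.Agent.Lib.MP_55ef7c_ag.InsepD

/-!
In characteristics two and three, in every dimension `N ≥ 2` there is a dominant rational self-map
of projective `N`-space whose degree sequence grows like `n ^ (2 * N - 2) * δ ^ n`.
-/

namespace Pool.Agent.Lib.MP_55ef7c_ag.Old.AllDimensionsCharP

open Filter Topology Pool.Agent.Lib.MP_55ef7c_ag

theorem result (K : Type*) [Field K] (p : ℕ) [CharP K p] (hp : p = 2 ∨ p = 3) (N : ℕ)
    (hN : 2 ≤ N) :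
    ∃ (f : Fin (N + 1) → MvPolynomial (Fin (N + 1)) K) (d : ℕ) (D : ℕ → ℕ) (δ : ℝ),
      IsMap f d ∧ AlgebraicIndependent K f ∧ (∀ n e, HasDeg (iter f n) e ↔ e = D n) ∧
      Tendsto (fun n : ℕ => (D n : ℝ) ^ (1 / (n : ℝ))) atTop (𝓝 δ) ∧ δ = (p : ℝ) ^ N ∧
      Asymp (fun n => (D n : ℝ)) (fun n => (n : ℝ) ^ (2 * N - 2) * δ ^ n) ∧
      ∀ l < 2 * N - 2, ¬ Asymp (fun n => (D n : ℝ)) (fun n => (n : ℝ) ^ l * δ ^ n) := by
  obtain ⟨k, rfl⟩ : ∃ k, N = k + 1 + 1 := ⟨N - 2, by omega⟩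
  obtain ⟨f, d, D, h1, h2, h3, c1, c2, n0, h4⟩ := insep (K := K) hp k
  obtain ⟨h5, h6, h7⟩ := conclusionQ (pow_pos (by omega) _) h4
  rw [show 2 * (k + 1 + 1) - 2 = (k + 1) * 2 by omega]
  exact ⟨f, d, D, _, h1, h2, h3, h5, Nat.cast_pow _ _, h6, h7⟩

end Pool.Agent.Lib.MP_55ef7c_ag.Old.AllDimensionsCharP
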